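import Pool.Agent.H36.Lob2

open Pool.Agent.H38.NP Pool.Agent.H36.Lob Filter

theorem Pool.Agent.Results.MP_8eff38_lc.NotInP.result : ∀ z : ℕ → ℕ, (∀ m, z m ≤ m) →
    (ETH → Tendsto (fun m => min (z m) (m - z m)) atTop atTop → ¬InPOn Valid (OLD z)) ∧
    (AeETH → (∀ K, ∃ m, K ≤ min (z m) (m - z m)) → ¬InPOn Valid (OLD z)) := fun _ hz =>
  ⟨fun H u => eth hz H (tendsto_atTop_atTop.1 u), aeeth hz⟩
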